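import Pool.Agent.Helper24.AN.Tan
import Pool.Agent.Helper24.AN.Rigid
import Pool.Agent.Helper14.FFull.Claims

/-!
# Anti-nilpotency of a quotient ring and of the annihilator of `x` (block TAN2)
-/

namespace Pool.Agent.Helper14.AN

open Pool.Agent.Helper14.FFull Pool.Agent.Helper24.AN

universe u

theorem mem_Zc_univ {A : Type u} [CommRing A] {n : ℕ} (c : Fin n → A) (z : CC c A) :
    z ∈ Zc c Finset.univ ↔ DD c A z = 0 :=
  ⟨fun h => funext fun σ => h σ (Finset.subset_univ σ), fun h σ _ => congrFun h σ⟩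

theorem mem_Bc_univ {A : Type u} [CommRing A] {n : ℕ} (c : Fin n → A) (z : CC c A) :
    z ∈ Bc c Finset.univ ↔ ∃ u : CC c A, z = DD c A u :=
  ⟨fun ⟨u, hu⟩ => ⟨u, funext fun σ => hu σ (Finset.subset_univ σ)⟩,
    fun ⟨u, hu⟩ => ⟨u, fun σ _ => congrFun hu σ⟩⟩

theorem Bc_le_Zc_univ {A : Type u} [CommRing A] {n : ℕ} (c : Fin n → A) :
    Bc c Finset.univ ≤ Zc c Finset.univ := by
  intro z hz
  obtain ⟨u, rfl⟩ := (mem_Bc_univ c z).mp hz
  exact (mem_Zc_univ c _).mpr (DD_DD c u)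

theorem powCC_mem_Zc {A : Type u} [CommRing A] (p : ℕ) [Fact p.Prime] [CharP A p] {n : ℕ}
    (c : Fin n → A) {z : CC c A} (hz : z ∈ Zc c Finset.univ) : powCC c p z ∈ Zc c Finset.univ := by
  rw [mem_Zc_univ] at hz ⊢
  have h : powCC c p z = frobCC c p z := rfl
  rw [h, frobCC_DD, hz, map_zero]

theorem TF_of_TAN {A : Type u} [CommRing A] (p : ℕ) [Fact p.Prime] [CharP A p] {n : ℕ} (b : Fin n → A)
    (h : TAN b p Finset.univ) : TF b p Finset.univ := by
  rw [TF_univ_iff]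
  set Sp := Submodule.span A {x : CC b A | ∃ w : CC b A, DD b A w = 0 ∧ x = powCC b p w} with hSp
  have h1 : Sp ≤ Zc b Finset.univ := by
    rw [hSp, Submodule.span_le]
    rintro _ ⟨w, hw, rfl⟩
    exact powCC_mem_Zc p b ((mem_Zc_univ b w).mpr hw)
  have h2 : Bc b Finset.univ ⊔ Sp ≤ Zc b Finset.univ := sup_le (Bc_le_Zc_univ b) h1
  have h3 : ∀ z ∈ Zc b Finset.univ, powCC b p z ∈ Bc b Finset.univ ⊔ Sp := fun z hz =>
    Submodule.mem_sup_right (Submodule.subset_span ⟨z, (mem_Zc_univ b z).mp hz, rfl⟩)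
  intro z hz
  have h4 := h (Bc b Finset.univ ⊔ Sp) le_sup_left h2 (fun z hz => h3 z (h2 hz)) z
    ((mem_Zc_univ b z).mpr hz) (h3 z ((mem_Zc_univ b z).mpr hz))
  obtain ⟨y, hy, v, hv, hyv⟩ := Submodule.mem_sup.mp h4
  obtain ⟨u, rfl⟩ := (mem_Bc_univ b y).mp hy
  exact ⟨v, hv, u, by rw [← hyv, add_comm]⟩

variable {R : Type u} [CommRing R] {A : Type u} [CommRing A] (f : R →+* A) {n : ℕ} (a : Fin n → R)
  (p : ℕ) [Fact p.Prime] [CharP R p]

theorem DD_frob_lift {x : R} {u z : CC a R} (h : DD a R u = x • z) :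
    DD a R (frobCC a p u) = x • (x ^ (p - 1) • frobCC a p z) := by
  rw [frobCC_DD, h, frobCC_smul, smul_smul, ← pow_succ',
    Nat.sub_add_cancel (Fact.out : p.Prime).pos]

/-- the cocycles of `A = R / x` which lie over a submodule of the cohomology of `R` -/
def pull (hf : Function.Surjective f) (x : R) (N : Submodule R (Coh (DD a R))) :
    Submodule A (CC (fun j => f (a j)) A) where
  carrier := {ζ | ∃ (u z : CC a R) (hz : z ∈ LinearMap.ker (DD a R)), piCC f a u = ζ ∧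
    DD a R u = x • z ∧ (Submodule.Quotient.mk ⟨z, hz⟩ : Coh (DD a R)) ∈ N}
  zero_mem' := ⟨0, 0, Submodule.zero_mem _, piCC_zero f a, by rw [map_zero, smul_zero],
    Submodule.zero_mem _⟩
  add_mem' := by
    rintro _ _ ⟨u, z, hz, rfl, h1, h2⟩ ⟨u', z', hz', rfl, h1', h2'⟩
    exact ⟨u + u', z + z', Submodule.add_mem _ hz hz', piCC_add f a u u',
      by rw [map_add, h1, h1', smul_add], Submodule.add_mem _ h2 h2'⟩
  smul_mem' := by
    rintro r _ ⟨u, z, hz, rfl, h1, h2⟩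
    obtain ⟨r', rfl⟩ := hf r
    exact ⟨r' • u, r' • z, Submodule.smul_mem _ r' hz, piCC_smul f a r' u,
      by rw [map_smul, h1, smul_comm], Submodule.smul_mem _ r' h2⟩

/-- the classes of the cohomology of `R` which come from a submodule of the cochains of `A = R / x` -/
def push (x : R) (N : Submodule A (CC (fun j => f (a j)) A)) : Submodule R (Coh (DD a R)) where
  carrier := {η | ∃ (u z : CC a R) (hz : z ∈ LinearMap.ker (DD a R)),
    (Submodule.Quotient.mk ⟨z, hz⟩ : Coh (DD a R)) = η ∧ DD a R u = x • z ∧ piCC f a u ∈ N}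
  zero_mem' := ⟨0, 0, Submodule.zero_mem _, rfl, by rw [map_zero, smul_zero],
    by rw [piCC_zero]; exact Submodule.zero_mem _⟩
  add_mem' := by
    rintro _ _ ⟨u, z, hz, rfl, h1, h2⟩ ⟨u', z', hz', rfl, h1', h2'⟩
    exact ⟨u + u', z + z', Submodule.add_mem _ hz hz', rfl, by rw [map_add, h1, h1', smul_add],
      by rw [piCC_add]; exact Submodule.add_mem _ h2 h2'⟩
  smul_mem' := by
    rintro r _ ⟨u, z, hz, rfl, h1, h2⟩
    exact ⟨r • u, r • z, Submodule.smul_mem _ r hz, rfl, by rw [map_smul, h1, smul_comm],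
      by rw [piCC_smul]; exact Submodule.smul_mem _ _ h2⟩

theorem ANK_of_TAN (hf : Function.Surjective f) {x : R} (hx : x ∈ nonZeroDivisors R)
    (hker : ∀ r, f r = 0 ↔ x ∣ r) (h : TAN (fun j => f (a j)) p Finset.univ) : ANK p (frobCoh a p) x := by
  have hfx : f x = 0 := (hker x).mpr dvd_rfl
  intro N _ hNF η hη hFη
  obtain ⟨⟨z, hz⟩, rfl⟩ := Submodule.Quotient.mk_surjective _ η
  rw [← Submodule.Quotient.mk_smul, coh_mk_eq_zero] at hη
  obtain ⟨u, hu⟩ := hη
  replace hu : DD a R u = x • z := hu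
  have h1 := h (pull f a hf x N) (by
      intro ζ hζ
      obtain ⟨w', rfl⟩ := (mem_Bc_univ _ _).mp hζ
      obtain ⟨w, rfl⟩ := piCC_surjective f a hf w'
      exact ⟨DD a R w, 0, Submodule.zero_mem _, piCC_DD f a w, by rw [DD_DD, smul_zero],
        Submodule.zero_mem _⟩) (by
      rintro _ ⟨u, z, hz, rfl, h1, _⟩
      rw [mem_Zc_univ, ← piCC_DD, h1, piCC_smul, hfx, zero_smul]) (by
      rintro _ ⟨u, z, hz, rfl, h1, h2⟩
      refine ⟨frobCC a p u, x ^ (p - 1) • frobCC a p z, ?_, piCC_powCC f a p u,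
        DD_frob_lift a p h1, hNF _ h2⟩
      exact Submodule.smul_mem _ _ (by
        rw [LinearMap.mem_ker, frobCC_DD, LinearMap.mem_ker.mp hz, map_zero])) (piCC f a u) (by
      rw [mem_Zc_univ, ← piCC_DD, hu, piCC_smul, hfx, zero_smul]) (by
      refine ⟨frobCC a p u, x ^ (p - 1) • frobCC a p z, ?_, piCC_powCC f a p u,
        DD_frob_lift a p hu, hFη⟩
      exact Submodule.smul_mem _ _ (by
        rw [LinearMap.mem_ker, frobCC_DD, LinearMap.mem_ker.mp hz, map_zero]))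
  obtain ⟨u', z', hz', e1, e2, e3⟩ := h1
  obtain ⟨w, hw⟩ := piCC_eq_zero f a (fun r => (hker r).mp)
    (show piCC f a (u - u') = 0 by rw [piCC_sub, e1, sub_self])
  have h2 : z - z' = DD a R w := by
    apply sub_eq_zero.mp
    apply CC_smul_eq_zero a hx
    rw [smul_sub, smul_sub, ← hu, ← e2, ← map_smul, ← hw, map_sub, sub_self]
  have h3 : (Submodule.Quotient.mk ⟨z, hz⟩ : Coh (DD a R)) = Submodule.Quotient.mk ⟨z', hz'⟩ := by
    rw [Submodule.Quotient.eq]
    exact ⟨w, h2.symm⟩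
  rw [h3]
  exact e3

theorem TAN_of_ANK (hf : Function.Surjective f) {y : R} (hy : y ∈ nonZeroDivisors R)
    (hker : ∀ r, f r = 0 ↔ y ∣ r) (hdiv : ∀ η : Coh (DD a R), ∃ η', y • η' = η)
    (h : ANK p (frobCoh a p) y) : TAN (fun j => f (a j)) p Finset.univ := by
  have hfy : f y = 0 := (hker y).mpr dvd_rfl
  intro N hBN hNZ hNp ζ hζ hpζ
  obtain ⟨u, rfl⟩ := piCC_surjective f a hf ζ
  rw [mem_Zc_univ, ← piCC_DD] at hζ
  obtain ⟨z, hz⟩ := piCC_eq_zero f a (fun r => (hker r).mp) hζ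
  have hz0 : z ∈ LinearMap.ker (DD a R) := by
    rw [LinearMap.mem_ker]
    apply CC_smul_eq_zero a hy
    rw [← map_smul, ← hz, DD_DD]
  have h1 := h (push f a y N) (by
      rintro _ ⟨u, z, hz, rfl, h1, _⟩
      rw [← Submodule.Quotient.mk_smul, coh_mk_eq_zero]
      exact ⟨u, h1⟩) (by
      rintro _ ⟨u, z, hz, rfl, h1, h2⟩
      refine ⟨frobCC a p u, y ^ (p - 1) • frobCC a p z, ?_, rfl, DD_frob_lift a p h1, ?_⟩
      · exact Submodule.smul_mem _ _ (by
          rw [LinearMap.mem_ker, frobCC_DD, LinearMap.mem_ker.mp hz, map_zero])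
      · rw [piCC_powCC]
        exact hNp _ h2) (Submodule.Quotient.mk ⟨z, hz0⟩) (by
      rw [← Submodule.Quotient.mk_smul, coh_mk_eq_zero]
      exact ⟨u, hz⟩) (by
      refine ⟨frobCC a p u, y ^ (p - 1) • frobCC a p z, ?_, rfl, DD_frob_lift a p hz, ?_⟩
      · exact Submodule.smul_mem _ _ (by
          rw [LinearMap.mem_ker, frobCC_DD, LinearMap.mem_ker.mp hz0, map_zero])
      · rw [piCC_powCC]
        exact hpζ)
  obtain ⟨u', z', hz', e1, e2, e3⟩ := h1
  rw [Submodule.Quotient.eq] at e1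
  obtain ⟨w, hw⟩ := e1
  replace hw : DD a R w = z' - z := hw
  have h2 : u' - u - y • w ∈ LinearMap.ker (DD a R) := by
    rw [LinearMap.mem_ker, map_sub, map_sub, map_smul, hz, e2, hw, smul_sub, sub_self]
  obtain ⟨η', hη'⟩ := hdiv (Submodule.Quotient.mk ⟨u' - u - y • w, h2⟩)
  obtain ⟨⟨q, hq⟩, rfl⟩ := Submodule.Quotient.mk_surjective _ η'
  rw [← Submodule.Quotient.mk_smul, Submodule.Quotient.eq] at hη'
  obtain ⟨q', hq'⟩ := hη'
  replace hq' : DD a R q' = y • q - (u' - u - y • w) := hq'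
  have h3 : u = u' + DD a R q' - y • (q + w) := by rw [hq', smul_add]; abel
  have h4 : piCC f a u = piCC f a u' + DD (fun j => f (a j)) A (piCC f a q') := by
    rw [h3, piCC_sub, piCC_add, piCC_smul, hfy, zero_smul, sub_zero, piCC_DD]
  rw [h4]
  exact Submodule.add_mem _ e3 (hBN ((mem_Bc_univ _ _).mpr ⟨_, rfl⟩))

end Pool.Agent.Helper14.AN
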